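import Pool.Agent.H58.PC.Core

set_option autoImplicit false
set_option linter.unusedSectionVars false
set_option linter.unusedVariables false
set_option maxHeartbeats 4000000

open Finset

namespace Pool.Agent.H58.PC

variable {ι A X : Type*} [Fintype ι] [DecidableEq ι] [Fintype A] [DecidableEq A]

open Classical in
/-- the difference sets with three elements -/
noncomputable def blocks (w : X → ι → A) (y : ι → A) : Finset (Finset ι) :=
  univ.filter fun B => B.card = 3 ∧ ∃ x, D w x y = B

lemma mem_blocks {w : X → ι → A} {y : ι → A} {B : Finset ι} :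
    B ∈ blocks w y ↔ B.card = 3 ∧ ∃ x, D w x y = B := by
  classical
  simp [blocks]

lemma MDS4.blocks_eq {w : X → ι → A} (H : MDS4 w) {y : ι → A} {B B' : Finset ι}
    (hB : B ∈ blocks w y) (hB' : B' ∈ blocks w y) {p l : ι} (hpl : p ≠ l) (h1 : p ∈ B)
    (h2 : l ∈ B) (h3 : p ∈ B') (h4 : l ∈ B') : B = B' := by
  rw [mem_blocks] at hB hB'
  obtain ⟨h5, x, rfl⟩ := hB
  obtain ⟨h6, x', rfl⟩ := hB'
  by_cases hx : x = x'
  · rw [hx]
  · have h7 := H.five hx y
    have h8 := card_union_add_card_inter (D w x y) (D w x' y)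
    have h9 : ({p, l} : Finset ι) ⊆ D w x y ∩ D w x' y := by
      intro a ha
      rw [mem_insert, mem_singleton] at ha
      rw [mem_inter]
      rcases ha with rfl | rfl
      · exact ⟨h1, h3⟩
      · exact ⟨h2, h4⟩
    have h10 := card_le_card h9
    rw [card_pair hpl] at h10
    omega

/-- the blocks through `p` -/
noncomputable def star (w : X → ι → A) (y : ι → A) (p : ι) : Finset (Finset ι) :=
  (blocks w y).filter (p ∈ ·)

/-- the points which are in a block together with `p` -/
noncomputable def cov (w : X → ι → A) (y : ι → A) (p : ι) : Finset ι :=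
  (star w y p).biUnion fun B => B.erase p

lemma mem_cov {w : X → ι → A} {y : ι → A} {p k : ι} :
    k ∈ cov w y p ↔ k ≠ p ∧ ∃ B ∈ blocks w y, p ∈ B ∧ k ∈ B := by
  simp only [cov, star, mem_biUnion, mem_filter, mem_erase]
  constructor
  · rintro ⟨B, ⟨h1, h2⟩, h3, h4⟩
    exact ⟨h3, B, h1, h2, h4⟩
  · rintro ⟨h3, B, h1, h2, h4⟩
    exact ⟨B, ⟨h1, h2⟩, h3, h4⟩

lemma MDS4.card_cov {w : X → ι → A} (H : MDS4 w) (y : ι → A) (p : ι) :
    (cov w y p).card = 2 * (star w y p).card := by
  unfold cov
  rw [card_biUnion]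
  · rw [sum_congr rfl (g := fun _ => 2), sum_const, smul_eq_mul, mul_comm]
    intro B hB
    simp only [star, mem_filter] at hB
    rw [card_erase_of_mem hB.2, (mem_blocks.1 hB.1).1]
  · intro B hB B' hB' hne
    rw [mem_coe, star, mem_filter] at hB hB'
    rw [Function.onFun, disjoint_left]
    intro l hl hl'
    rw [mem_erase] at hl hl'
    exact hne (H.blocks_eq hB.1 hB'.1 hl.1.symm hB.2 hl.2 hB'.2 hl'.2)

/-- incidences of points and blocks -/
lemma sum_star {w : X → ι → A} {y : ι → A} (V : Finset ι) (hV : ∀ B ∈ blocks w y, B ⊆ V) :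
    ∑ p ∈ V, (star w y p).card = 3 * (blocks w y).card := by
  have h1 : ∀ p ∈ V, (star w y p).card = ∑ B ∈ blocks w y, if p ∈ B then 1 else 0 := by
    intro p _
    rw [star, card_filter]
  rw [sum_congr rfl h1, sum_comm, mul_comm, ← smul_eq_mul, ← sum_const]
  refine sum_congr rfl fun B hB => ?_
  rw [← card_filter]
  have h2 : V.filter (· ∈ B) = B := by
    ext p
    rw [mem_filter]
    exact ⟨fun h => h.2, fun h => ⟨hV B hB h, h⟩⟩
  rw [h2, (mem_blocks.1 hB).1]

lemma block_of_sdiff {w : X → ι → A} {y : ι → A} {x : X} {p k : ι} (hpk : p ≠ k)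
    (h3 : 3 ≤ (D w x y).card) (h1 : (D w x y \ {p, k}).card = 1) :
    D w x y ∈ blocks w y ∧ p ∈ D w x y ∧ k ∈ D w x y := by
  have h4 : (D w x y \ {p, k}).card + (D w x y ∩ {p, k}).card = (D w x y).card :=
    card_sdiff_add_card_inter _ _
  have h5 : (D w x y ∩ {p, k}).card ≤ ({p, k} : Finset ι).card := card_le_card inter_subset_right
  rw [card_pair hpk] at h5
  have h6 : D w x y ∩ {p, k} = {p, k} := by
    apply eq_of_subset_of_card_le inter_subset_right
    rw [card_pair hpk]
    omega
  refine ⟨mem_blocks.2 ⟨by omega, x, rfl⟩, ?_, ?_⟩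
  · have : p ∈ D w x y ∩ {p, k} := by rw [h6]; simp
    exact (mem_inter.1 this).1
  · have : k ∈ D w x y ∩ {p, k} := by rw [h6]; simp
    exact (mem_inter.1 this).1

lemma sdiff_of_block {w : X → ι → A} {y : ι → A} {p k : ι} (h : k ∈ cov w y p) :
    ¬ L w p k y := by
  obtain ⟨hkp, B, hB, hp, hk⟩ := mem_cov.1 h
  obtain ⟨h3, x, rfl⟩ := mem_blocks.1 hB
  intro hL
  apply hL x
  rw [card_sdiff_of_subset, h3, card_pair hkp.symm]
  intro a ha
  rw [mem_insert, mem_singleton] at ha
  rcases ha with rfl | rfl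
  · exact hp
  · exact hk

/-- the word `y` differs from the row `x0` exactly in the columns `i ≠ j` -/
structure Sec (w : X → ι → A) (x0 : X) (i j : ι) (y : ι → A) : Prop where
  ne : i ≠ j
  eq : D w x0 y = {i, j}

/-- all rows have distance at least three from `z` -/
def Far (w : X → ι → A) (z : ι → A) : Prop := ∀ x, 3 ≤ (D w x z).card

lemma Far.L_iff {w : X → ι → A} {z : ι → A} (hz : Far w z) {p k : ι} (hpk : p ≠ k) :
    L w p k z ↔ k ∉ cov w z p := by
  constructor
  · intro h hk
    exact sdiff_of_block hk h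
  · intro h x hx
    obtain ⟨h1, h2, h3⟩ := block_of_sdiff hpk (hz x) hx
    exact h (mem_cov.2 ⟨hpk.symm, _, h1, h2, h3⟩)

namespace Sec

variable {w : X → ι → A} {x0 : X} {i j : ι} {y : ι → A}

lemma ge_three (H : MDS4 w) (S : Sec w x0 i j y) {x : X} (hx : x ≠ x0) :
    3 ≤ (D w x y).card := by
  have := H.five' hx y
  rw [S.eq, card_pair S.ne] at this
  omega

lemma disj (H : MDS4 w) (S : Sec w x0 i j y) {B : Finset ι} (hB : B ∈ blocks w y) :
    i ∉ B ∧ j ∉ B := by
  obtain ⟨h3, x, rfl⟩ := mem_blocks.1 hB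
  have hx : x ≠ x0 := by
    rintro rfl
    rw [S.eq, card_pair S.ne] at h3
    omega
  have h5 := H.five hx y
  rw [S.eq] at h5
  have h6 := card_union_add_card_inter (D w x y) {i, j}
  rw [card_pair S.ne] at h6
  have h7 : (D w x y ∩ {i, j}) = ∅ := by
    rw [← card_eq_zero]; omega
  constructor
  · intro h
    have : i ∈ D w x y ∩ {i, j} := by simp [h]
    rw [h7] at this
    simp at this
  · intro h
    have : j ∈ D w x y ∩ {i, j} := by simp [h]
    rw [h7] at this
    simp at this

lemma L_iff (H : MDS4 w) (S : Sec w x0 i j y) {p k : ι} (hpi : p ≠ i) (hpj : p ≠ j)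
    (hki : k ≠ i) (hkj : k ≠ j) (hpk : p ≠ k) : L w p k y ↔ k ∉ cov w y p := by
  constructor
  · intro h hk
    exact sdiff_of_block hk h
  · intro h x hx
    have hx0 : x ≠ x0 := by
      rintro rfl
      rw [S.eq] at hx
      have : ({i, j} : Finset ι) \ {p, k} = {i, j} := by
        rw [Finset.sdiff_eq_self_iff_disjoint, disjoint_left]
        intro a ha
        simp only [mem_insert, mem_singleton] at ha ⊢
        rcases ha with rfl | rfl
        · tauto
        · tauto
      rw [this, card_pair S.ne] at hx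
      omega
    obtain ⟨h1, h2, h3⟩ := block_of_sdiff hpk (S.ge_three H hx0) hx
    exact h (mem_cov.2 ⟨hpk.symm, _, h1, h2, h3⟩)

lemma cov_subset (H : MDS4 w) (S : Sec w x0 i j y) {p : ι} : cov w y p ⊆ univ \ {i, j, p} := by
  intro k hk
  obtain ⟨h1, B, hB, h2, h3⟩ := mem_cov.1 hk
  have h4 := S.disj H hB
  simp only [mem_sdiff, mem_univ, true_and, mem_insert, mem_singleton, not_or]
  refine ⟨?_, ?_, h1⟩
  · rintro rfl; exact h4.1 h3
  · rintro rfl; exact h4.2 h3

lemma card_V (S : Sec w x0 i j y) (hcard : Fintype.card ι = Fintype.card A + 2) {p : ι}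
    (hpi : p ≠ i) (hpj : p ≠ j) : (univ \ {i, j, p} : Finset ι).card + 1 = Fintype.card A := by
  have h1 : ({i, j, p} : Finset ι).card = 3 := card_eq_three.2 ⟨i, j, p, S.ne, hpi.symm, hpj.symm, rfl⟩
  have h3 : 3 ≤ Fintype.card ι := by
    rw [← h1]; exact card_le_univ _
  rw [card_sdiff_of_subset (subset_univ _), h1, card_univ]
  omega

lemma exists_partner (H : MDS4 w) (S : Sec w x0 i j y)
    (hcard : Fintype.card ι = Fintype.card A + 2) (hev : Even (Fintype.card A)) {p : ι}
    (hpi : p ≠ i) (hpj : p ≠ j) : ∃ k ∈ univ \ {i, j, p}, L w p k y := by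
  by_contra hcon
  push Not at hcon
  have h1 : cov w y p = univ \ {i, j, p} := by
    refine subset_antisymm (S.cov_subset H) fun k hk => ?_
    by_contra h
    have hk' := hk
    simp only [mem_sdiff, mem_univ, true_and, mem_insert, mem_singleton, not_or] at hk'
    exact hcon k hk ((S.L_iff H hpi hpj hk'.1 hk'.2.1 (Ne.symm hk'.2.2)).2 h)
  have h2 := S.card_V hcard hpi hpj
  rw [← h1, H.card_cov] at h2
  rw [← h2] at hev
  exact (Nat.not_even_iff_odd.2 ⟨_, rfl⟩) hev

lemma update (S : Sec w x0 i j y) {t : A} (ht : t ≠ w x0 j) :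
    Sec w x0 i j (Function.update y j t) := by
  refine ⟨S.ne, ?_⟩
  rw [D_update_ne ht.symm, S.eq]
  exact insert_eq_of_mem (by simp)

lemma unique_partner [Nonempty X] (H : MDS4 w) (S : Sec w x0 i j y)
    (hcard : Fintype.card ι = Fintype.card A + 2) (hev : Even (Fintype.card A)) {p : ι}
    (hpi : p ≠ i) (hpj : p ≠ j) : ∃! k, k ∈ univ \ {i, j, p} ∧ L w p k y := by
  classical
  have hV : ∀ k, k ∈ univ \ {i, j, p} ↔ k ≠ i ∧ k ≠ j ∧ k ≠ p := by
    intro k; simp
  have hex : ∀ k, ∃ t, k ∈ univ \ {i, j, p} → ∀ s, L w p k (Function.update y j s) ↔ s = t := by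
    intro k
    by_cases hk : k ∈ univ \ {i, j, p}
    · have hk' := (hV k).1 hk
      obtain ⟨t, ht, hu⟩ := H.latin hcard (Ne.symm hk'.2.2) hpj.symm hk'.2.1.symm y (k := j)
      exact ⟨t, fun _ s => ⟨fun h => hu s h, fun h => h ▸ ht⟩⟩
    · exact ⟨y i, fun h => absurd h hk⟩
  choose t ht using hex
  have hiD : w x0 i ≠ y i := by
    rw [← mem_D, S.eq]; simp
  have hne : ∀ k ∈ univ \ {i, j, p}, t k ≠ w x0 j := by
    intro k hk he
    have hk' := (hV k).1 hk
    have h1 : L w p k (Function.update y j (w x0 j)) := (ht k hk _).2 he.symm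
    have h2 : Function.update y j (w x0 j) = Function.update (w x0) i (y i) := by
      funext a
      by_cases haj : a = j
      · subst haj
        rw [Function.update_self, Function.update_of_ne S.ne.symm]
      · rw [Function.update_of_ne haj]
        by_cases hai : a = i
        · subst hai; rw [Function.update_self]
        · rw [Function.update_of_ne hai]
          have : a ∉ D w x0 y := by rw [S.eq]; simp [hai, haj]
          rw [notMem_D] at this
          exact this.symm
    rw [h2] at h1
    obtain ⟨s, hs, hu⟩ := H.latin hcard (Ne.symm hk'.2.2) hpi.symm hk'.1.symm (w x0) (k := i)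
    have h3 := hu _ h1
    have h4 := hu (w x0 i) (by
      show L w p k (Function.update (w x0) i (w x0 i))
      rw [Function.update_eq_self]; exact H.L_row p k x0)
    exact hiD (h4.trans h3.symm)
  have hsub : univ.erase (w x0 j) ⊆ (univ \ {i, j, p}).image t := by
    intro τ hτ
    rw [mem_erase] at hτ
    obtain ⟨k, hk, hL⟩ := (S.update hτ.1).exists_partner H hcard hev hpi hpj
    exact mem_image.2 ⟨k, hk, ((ht k hk τ).1 hL).symm⟩
  have hcE : (univ.erase (w x0 j) : Finset A).card = (univ \ {i, j, p} : Finset ι).card := by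
    have h1 := S.card_V hcard hpi hpj
    rw [card_erase_of_mem (mem_univ _), card_univ]
    omega
  have hinj : Set.InjOn t (univ \ {i, j, p} : Finset ι) := by
    rw [← card_image_iff]
    refine le_antisymm card_image_le ?_
    rw [← hcE]
    exact card_le_card hsub
  have hyj : w x0 j ≠ y j := by
    rw [← mem_D, S.eq]; simp
  obtain ⟨k, hk, hL⟩ := S.exists_partner H hcard hev hpi hpj
  refine ⟨k, ⟨hk, hL⟩, ?_⟩
  rintro k' ⟨hk', hL'⟩
  have e : Function.update y j (y j) = y := Function.update_eq_self j y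
  have h1 := (ht k hk (y j)).1 (by rw [e]; exact hL)
  have h2 := (ht k' hk' (y j)).1 (by rw [e]; exact hL')
  exact hinj (mem_coe.2 hk') (mem_coe.2 hk) (h2.symm.trans h1)

lemma star_card [Nonempty X] (H : MDS4 w) (S : Sec w x0 i j y)
    (hcard : Fintype.card ι = Fintype.card A + 2) (hev : Even (Fintype.card A)) {p : ι}
    (hpi : p ≠ i) (hpj : p ≠ j) : 2 * (star w y p).card + 2 = Fintype.card A := by
  obtain ⟨k, ⟨hk, hL⟩, hu⟩ := S.unique_partner H hcard hev hpi hpj
  have h1 : cov w y p = (univ \ {i, j, p}).erase k := by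
    ext l
    rw [mem_erase]
    constructor
    · intro hl
      have hl' := S.cov_subset H hl
      refine ⟨?_, hl'⟩
      rintro rfl
      exact sdiff_of_block hl hL
    · rintro ⟨h1, h2⟩
      by_contra h
      have h3 := h2
      simp only [mem_sdiff, mem_univ, true_and, mem_insert, mem_singleton, not_or] at h3
      exact h1 (hu l ⟨h2, (S.L_iff H hpi hpj h3.1 h3.2.1 (Ne.symm h3.2.2)).2 h⟩)
  have h2 := S.card_V hcard hpi hpj
  have h3 := H.card_cov y p
  rw [h1, card_erase_of_mem hk] at h3
  have h4 : 1 ≤ (univ \ {i, j, p} : Finset ι).card := card_pos.2 ⟨k, hk⟩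
  omega

/-- three divides `n (n - 2)` -/
lemma three_dvd [Nonempty X] (H : MDS4 w) (S : Sec w x0 i j y)
    (hcard : Fintype.card ι = Fintype.card A + 2) (hev : Even (Fintype.card A)) :
    3 ∣ Fintype.card A * (Fintype.card A - 2) := by
  have h1 := sum_star (w := w) (y := y) (univ \ {i, j}) (by
    intro B hB p hp
    have := S.disj H hB
    simp only [mem_sdiff, mem_univ, true_and, mem_insert, mem_singleton, not_or]
    constructor
    · rintro rfl; exact this.1 hp
    · rintro rfl; exact this.2 hp)
  have h2 : (univ \ {i, j} : Finset ι).card = Fintype.card A := by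
    rw [card_sdiff_of_subset (subset_univ _), card_univ, card_pair S.ne]
    omega
  have h3 : ∑ p ∈ univ \ {i, j}, 2 * (star w y p).card = Fintype.card A * (Fintype.card A - 2) := by
    rw [sum_congr rfl (g := fun _ => Fintype.card A - 2), sum_const, h2, smul_eq_mul]
    intro p hp
    simp only [mem_sdiff, mem_univ, true_and, mem_insert, mem_singleton, not_or] at hp
    have := S.star_card H hcard hev hp.1 hp.2
    omega
  rw [← mul_sum, h1] at h3
  exact ⟨2 * (blocks w y).card, by rw [← h3]; ring⟩

/-- there are two values at `p` which give words of distance at least three from all rows -/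
lemma exists_far [Nonempty X] (H : MDS4 w) (S : Sec w x0 i j y)
    (hcard : Fintype.card ι = Fintype.card A + 2) (hev : Even (Fintype.card A))
    (h4 : 4 ≤ Fintype.card A) {p : ι} (hpi : p ≠ i) (hpj : p ≠ j) :
    ∃ r r', r ≠ r' ∧ r ≠ y p ∧ r' ≠ y p ∧ Far w (Function.update y p r) ∧
      Far w (Function.update y p r') := by
  classical
  let Bad : Finset A := univ.filter fun r => r ≠ y p ∧ ¬ Far w (Function.update y p r)
  have hp0 : w x0 p = y p := by
    rw [← notMem_D, S.eq]; simp [hpi, hpj]
  have hbad : ∀ r, ∃ x, r ∈ Bad → w x p = r ∧ D w x y ∈ star w y p := by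
    intro r
    by_cases hr : r ∈ Bad
    · have hr' := hr
      simp only [Bad, mem_filter, mem_univ, true_and, Far, not_forall, not_le] at hr'
      obtain ⟨hry, x, hx⟩ := hr'
      have h0 : D w x0 (Function.update y p r) = {p, i, j} := by
        rw [D_update_ne (by rw [hp0]; exact hry.symm), S.eq]
      have h0c : ({p, i, j} : Finset ι).card = 3 := card_eq_three.2 ⟨p, i, j, hpi, hpj, S.ne, rfl⟩
      have hxx : x ≠ x0 := by
        rintro rfl
        rw [h0, h0c] at hx
        omega
      have h5 := H.five hxx (Function.update y p r)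
      have h6 := card_union_add_card_inter (D w x (Function.update y p r))
        (D w x0 (Function.update y p r))
      rw [h0] at h5 h6
      rw [h0c] at h6
      have h7 : D w x (Function.update y p r) ∩ {p, i, j} = ∅ := by
        rw [← card_eq_zero]; omega
      have h8 : p ∉ D w x (Function.update y p r) := by
        intro h
        have : p ∈ D w x (Function.update y p r) ∩ {p, i, j} := by simp [h]
        rw [h7] at this
        simp at this
      have h9 : w x p = r := by
        have := notMem_D.1 h8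
        rwa [Function.update_self] at this
      have h10 : D w x y = insert p (D w x (Function.update y p r)) := by
        have : y = Function.update (Function.update y p r) p (y p) := by simp
        conv_lhs => rw [this]
        rw [D_update_ne]
        rw [h9]; exact hry
      refine ⟨x, fun _ => ⟨h9, ?_⟩⟩
      unfold star
      rw [mem_filter, mem_blocks]
      refine ⟨⟨?_, x, rfl⟩, ?_⟩
      · rw [h10, card_insert_of_notMem h8]
        omega
      · rw [h10]; exact mem_insert_self _ _
    · exact ⟨x0, fun h => absurd h hr⟩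
  choose x hx using hbad
  have hinj : Set.InjOn (fun r => D w (x r) y) (Bad : Set A) := by
    intro r hr r' hr' he
    rw [mem_coe] at hr hr'
    dsimp only at he
    obtain ⟨h1, h2⟩ := hx r hr
    obtain ⟨h3, h4⟩ := hx r' hr'
    by_cases hxx : x r = x r'
    · rw [← h1, ← h3, hxx]
    · exfalso
      have h5 := H.five hxx y
      rw [← he, union_self] at h5
      have h6 := (mem_blocks.1 (mem_filter.1 h2).1).1
      omega
  have hc : Bad.card ≤ (star w y p).card := by
    rw [← card_image_of_injOn hinj]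
    refine card_le_card fun B hB => ?_
    obtain ⟨r, hr, rfl⟩ := mem_image.1 hB
    exact (hx r hr).2
  have h5 := S.star_card H hcard hev hpi hpj
  have h6 : 1 < ((univ.erase (y p)) \ Bad).card := by
    have h7 : (univ.erase (y p) : Finset A).card = Fintype.card A - 1 := by
      rw [card_erase_of_mem (mem_univ _), card_univ]
    have h8 := le_card_sdiff Bad (univ.erase (y p))
    omega
  obtain ⟨r, hr, r', hr', hne⟩ := one_lt_card.1 h6
  simp only [Bad, mem_sdiff, mem_erase, mem_univ, and_true, mem_filter, true_and, not_and,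
    not_not] at hr hr'
  exact ⟨r, r', hne, hr.1, hr'.1, hr.2 hr.1, hr'.2 hr'.1⟩

end Sec

lemma Far.star_card [Nonempty X] {w : X → ι → A} (H : MDS4 w) {z : ι → A} (hz : Far w z)
    (hcard : Fintype.card ι = Fintype.card A + 2) (hev : Even (Fintype.card A)) {p : ι}
    {B : Finset ι} (hB : B ∈ blocks w z) (hp : p ∈ B) :
    2 * (star w z p).card = Fintype.card A := by
  obtain ⟨h3, x, rfl⟩ := mem_blocks.1 hB
  have h2 : ((D w x z).erase p).card = 2 := by rw [card_erase_of_mem hp, h3]
  obtain ⟨i, j, hij, he⟩ := card_eq_two.1 h2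
  have S : Sec w x i j (Function.update z p (w x p)) := ⟨hij, by rw [D_update_same, he]⟩
  have hi : i ∈ (D w x z).erase p := by rw [he]; simp
  have hj : j ∈ (D w x z).erase p := by rw [he]; simp
  rw [mem_erase] at hi hj
  obtain ⟨k, ⟨hk, hL⟩, hu⟩ := S.unique_partner H hcard hev hi.1.symm hj.1.symm
  simp only [mem_sdiff, mem_univ, true_and, mem_insert, mem_singleton, not_or] at hk hu
  have h1 : cov w z p = univ \ {p, k} := by
    ext l
    simp only [mem_sdiff, mem_univ, true_and, mem_insert, mem_singleton, not_or]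
    constructor
    · intro hl
      refine ⟨(mem_cov.1 hl).1, ?_⟩
      rintro rfl
      exact sdiff_of_block hl (L_update_left.1 hL)
    · rintro ⟨h4, h5⟩
      by_contra hcon
      have h6 := (hz.L_iff (Ne.symm h4)).2 hcon
      apply h5
      apply hu l
      refine ⟨⟨?_, ?_, h4⟩, L_update_left.2 h6⟩
      · rintro rfl
        exact hcon (mem_cov.2 ⟨h4, _, hB, hp, hi.2⟩)
      · rintro rfl
        exact hcon (mem_cov.2 ⟨h4, _, hB, hp, hj.2⟩)
  have h4 := H.card_cov z p
  rw [h1, card_sdiff_of_subset (subset_univ _), card_univ, card_pair (Ne.symm hk.2.2)] at h4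
  omega

lemma Far.exists_isolated [Nonempty X] {w : X → ι → A} (H : MDS4 w) {z : ι → A} (hz : Far w z)
    (hcard : Fintype.card ι = Fintype.card A + 2) (hev : Even (Fintype.card A))
    (h3 : Fintype.card A % 3 = 2) : ∃ v, ∀ B ∈ blocks w z, v ∉ B := by
  by_contra hcon
  push Not at hcon
  have h1 := sum_star (w := w) (y := z) univ (fun B _ => subset_univ B)
  have h2 : ∑ p : ι, 2 * (star w z p).card = (Fintype.card A + 2) * Fintype.card A := by
    rw [sum_congr rfl (g := fun _ => Fintype.card A), sum_const, card_univ, hcard, smul_eq_mul]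
    intro p _
    obtain ⟨B, hB, hp⟩ := hcon p
    exact hz.star_card H hcard hev hB hp
  rw [← mul_sum, h1] at h2
  have h4 : (Fintype.card A + 2) * Fintype.card A % 3 = 2 := by
    rw [Nat.mul_mod, Nat.add_mod, h3]
  omega

/-- **No array of redundancy four.** -/
theorem three_dvd_card {w : X → ι → A} (H : MDS4 w)
    (hcard : Fintype.card ι = Fintype.card A + 2) (hev : Even (Fintype.card A))
    (h4 : 4 ≤ Fintype.card A) : 3 ∣ Fintype.card A := by
  classical
  obtain ⟨i, j, p, hij, hip, hjp⟩ : ∃ i j p : ι, i ≠ j ∧ i ≠ p ∧ j ≠ p := by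
    have : 2 < (univ : Finset ι).card := by rw [card_univ]; omega
    obtain ⟨a, -, b, -, c, -, h1, h2, h3⟩ := two_lt_card.1 this
    exact ⟨a, b, c, h1, h2, h3⟩
  obtain ⟨a0, b0, hab⟩ : ∃ a b : A, a ≠ b :=
    Fintype.exists_pair_of_one_lt_card (by omega)
  have hother : ∀ a : A, ∃ b, a ≠ b := by
    intro a
    by_cases h : a = a0
    · exact ⟨b0, h ▸ hab⟩
    · exact ⟨a0, h⟩
  have hX : Nonempty X := by
    obtain ⟨S, -, hS⟩ := exists_subset_card_eq (s := (univ : Finset ι)) (n := 4)
      (by rw [card_univ]; omega)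
    obtain ⟨x, -⟩ := H.ex S hS (fun _ => a0)
    exact ⟨x⟩
  obtain ⟨x0⟩ := hX
  have : Nonempty X := ⟨x0⟩
  obtain ⟨s, hs⟩ := hother (w x0 i)
  obtain ⟨t, ht⟩ := hother (w x0 j)
  let y := Function.update (Function.update (w x0) i s) j t
  have S : Sec w x0 i j y := by
    refine ⟨hij, ?_⟩
    rw [D_update_ne ht, D_update_ne hs, D_self]
    ext a
    simp only [mem_insert, mem_singleton, notMem_empty, or_false]
    tauto
  have h3 := S.three_dvd H hcard hev
  rw [(Nat.prime_three).dvd_mul] at h3
  rcases h3 with h3 | h3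
  · exact h3
  · exfalso
    have hmod : Fintype.card A % 3 = 2 := by omega
    obtain ⟨r, r', hrr, hr, hr', hF, hF'⟩ := S.exists_far H hcard hev h4 hip.symm hjp.symm
    have key : ∀ r, r ≠ y p → Far w (Function.update y p r) → ∃ v, v ≠ i ∧ v ≠ j ∧ v ≠ p ∧
        L w p v y ∧ L w i v (Function.update y p r) := by
      intro r hr hF
      obtain ⟨v, hv⟩ := hF.exists_isolated H hcard hev hmod
      have hp0 : w x0 p = y p := by
        rw [← notMem_D, S.eq]; simp [hip.symm, hjp.symm]
      have h0 : D w x0 (Function.update y p r) = {p, i, j} := by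
        rw [D_update_ne (by rw [hp0]; exact hr.symm), S.eq]
      have h0c : ({p, i, j} : Finset ι).card = 3 :=
        card_eq_three.2 ⟨p, i, j, hip.symm, hjp.symm, S.ne, rfl⟩
      have hB : ({p, i, j} : Finset ι) ∈ blocks w (Function.update y p r) :=
        mem_blocks.2 ⟨h0c, x0, h0⟩
      have hv0 := hv _ hB
      simp only [mem_insert, mem_singleton, not_or] at hv0
      have hcov : ∀ a, v ∉ cov w (Function.update y p r) a := by
        intro a ha
        obtain ⟨-, B, hB, -, h⟩ := mem_cov.1 ha
        exact hv B hB h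
      exact ⟨v, hv0.2.1, hv0.2.2, hv0.1,
        L_update_left.1 ((hF.L_iff (Ne.symm hv0.1)).2 (hcov p)),
        (hF.L_iff (Ne.symm hv0.2.1)).2 (hcov i)⟩
    obtain ⟨v, h1, h2, h5, h6, h7⟩ := key r hr hF
    obtain ⟨v', h1', h2', h5', h6', h7'⟩ := key r' hr' hF'
    obtain ⟨k, -, hu⟩ := S.unique_partner H hcard hev hip.symm hjp.symm
    have e1 := hu v ⟨by simp [h1, h2, h5], h6⟩
    have e2 := hu v' ⟨by simp [h1', h2', h5'], h6'⟩
    rw [e2, ← e1] at h7'
    obtain ⟨q, -, hq⟩ := H.latin hcard (Ne.symm h1) hip.symm (Ne.symm h5) y (k := p)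
    exact hrr ((hq r h7).trans (hq r' h7').symm)

end Pool.Agent.H58.PC
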