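import Mathlib

/-!
# Arrays with four redundant coordinates

`w : X → ι → A` is an array whose rows are indexed by `X`, whose columns are indexed by `ι` and
whose symbols are in `A`. `MDS4 w` says that for every set `S` of four columns and every word `y`
there is exactly one row which agrees with `y` outside of `S`.

Main result: if `|ι| = |A| + 2`, `|A| ≥ 4` is even, then `3` divides `|A|`.
-/

set_option autoImplicit false
set_option linter.unusedSectionVars false
set_option linter.unusedVariables false
set_option maxHeartbeats 4000000

open Finset

namespace Pool.Agent.H58.PC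

variable {ι A X : Type*} [Fintype ι] [DecidableEq ι] [Fintype A] [DecidableEq A]

/-- the columns in which the row `w x` and the word `y` differ -/
def D (w : X → ι → A) (x : X) (y : ι → A) : Finset ι := univ.filter fun i => w x i ≠ y i

lemma mem_D {w : X → ι → A} {x : X} {y : ι → A} {i : ι} : i ∈ D w x y ↔ w x i ≠ y i := by
  simp [D]

lemma notMem_D {w : X → ι → A} {x : X} {y : ι → A} {i : ι} : i ∉ D w x y ↔ w x i = y i := by
  simp [D]

/-- every set of four columns is redundant, and minimal with this property -/
structure MDS4 (w : X → ι → A) : Prop where
  ex : ∀ S : Finset ι, S.card = 4 → ∀ y, ∃ x, D w x y ⊆ S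
  uniq : ∀ S : Finset ι, S.card ≤ 4 → ∀ x x', D w x (w x') ⊆ S → x = x'

lemma D_self (w : X → ι → A) (x : X) : D w x (w x) = ∅ := by
  ext i; simp [D]

lemma D_tri (w : X → ι → A) (x x' : X) (y : ι → A) : D w x (w x') ⊆ D w x y ∪ D w x' y := by
  intro i hi
  rw [mem_union]
  rw [mem_D] at hi
  by_contra h
  push Not at h
  rw [notMem_D, notMem_D] at h
  exact hi (h.1.trans h.2.symm)

lemma D_update_same {w : X → ι → A} {x : X} {y : ι → A} {k : ι} :
    D w x (Function.update y k (w x k)) = (D w x y).erase k := by
  ext i
  rw [mem_erase, mem_D, mem_D]
  by_cases h : i = k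
  · subst h; simp
  · simp [h]

lemma D_update_ne {w : X → ι → A} {x : X} {y : ι → A} {k : ι} {s : A} (hs : w x k ≠ s) :
    D w x (Function.update y k s) = insert k (D w x y) := by
  ext i
  rw [mem_insert, mem_D, mem_D]
  by_cases h : i = k
  · subst h; simp [hs]
  · simp [h]

lemma D_update_subset {w : X → ι → A} {x : X} {y : ι → A} {k : ι} {s : A} :
    D w x (Function.update y k s) ⊆ insert k (D w x y) := by
  intro i
  rw [mem_insert, mem_D, mem_D]
  by_cases h : i = k
  · subst h; simp
  · simp [h]

lemma D_subset_update {w : X → ι → A} {x : X} {y : ι → A} {k : ι} {s : A} :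
    D w x y ⊆ insert k (D w x (Function.update y k s)) := by
  intro i
  rw [mem_insert, mem_D, mem_D]
  by_cases h : i = k
  · subst h; simp
  · simp [h]

/-- two rows are at distance at least five -/
lemma MDS4.five {w : X → ι → A} (H : MDS4 w) {x x' : X} (hx : x ≠ x') (y : ι → A) :
    5 ≤ (D w x y ∪ D w x' y).card := by
  by_contra h
  push Not at h
  exact hx (H.uniq _ (by omega) x x' (D_tri w x x' y))

lemma MDS4.five' {w : X → ι → A} (H : MDS4 w) {x x' : X} (hx : x ≠ x') (y : ι → A) :
    5 ≤ (D w x y).card + (D w x' y).card :=
  (H.five hx y).trans (card_union_le _ _)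

/-- no row differs from `y` in exactly one column outside of `{i, j}` -/
def L (w : X → ι → A) (i j : ι) (y : ι → A) : Prop := ∀ x, (D w x y \ {i, j}).card ≠ 1

lemma L_update_left {w : X → ι → A} {i j : ι} {y : ι → A} {s : A} :
    L w i j (Function.update y i s) ↔ L w i j y := by
  unfold L
  refine forall_congr' fun x => ?_
  have : D w x (Function.update y i s) \ {i, j} = D w x y \ {i, j} := by
    ext l
    simp only [mem_sdiff, mem_insert, mem_singleton, mem_D]
    by_cases h : l = i
    · simp [h]
    · simp [h]
  rw [this]

lemma L_comm {w : X → ι → A} {i j : ι} {y : ι → A} : L w i j y ↔ L w j i y := by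
  unfold L
  rw [Finset.pair_comm]

lemma MDS4.L_row {w : X → ι → A} (H : MDS4 w) (i j : ι) (x0 : X) : L w i j (w x0) := by
  intro x hx
  have h1 : (D w x (w x0)).card ≤ 3 := by
    have h2 : D w x (w x0) ⊆ (D w x (w x0) \ {i, j}) ∪ {i, j} := by
      rw [sdiff_union_self_eq_union]; exact subset_union_left
    have h3 := (card_le_card h2).trans (card_union_le _ _)
    have h4 : ({i, j} : Finset ι).card ≤ 2 := card_le_two
    omega
  have h5 := H.uniq _ (by omega) x x0 (Subset.refl (D w x (w x0)))
  subst h5
  rw [D_self] at hx
  simp at hx

/-- exactly one value in the column `k` gives a word in `L` -/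
lemma MDS4.latin [Nonempty X] {w : X → ι → A} (H : MDS4 w) (hcard : Fintype.card ι = Fintype.card A + 2)
    {i j k : ι} (hij : i ≠ j) (hik : k ≠ i) (hjk : k ≠ j) (y : ι → A) :
    ∃! s, L w i j (Function.update y k s) := by
  classical
  have hP : ({i, j} : Finset ι).card = 2 := card_pair hij
  by_cases hA : ∃ x, D w x y ⊆ {i, j, k}
  · obtain ⟨x, hx⟩ := hA
    have hx1 : D w x (Function.update y k (w x k)) ⊆ {i, j} := by
      rw [D_update_same]
      intro l hl
      rw [mem_erase] at hl
      have := hx hl.2
      simp only [mem_insert, mem_singleton] at this ⊢
      tauto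
    refine ⟨w x k, ?_, ?_⟩
    · intro x' hx'
      by_cases hxx : x' = x
      · subst hxx
        rw [sdiff_eq_empty_iff_subset.2 hx1] at hx'
        simp at hx'
      · have h5 := H.five hxx (Function.update y k (w x k))
        have h6 : D w x' (Function.update y k (w x k)) ∪ D w x (Function.update y k (w x k)) ⊆
            (D w x' (Function.update y k (w x k)) \ {i, j}) ∪ {i, j} := by
          rw [sdiff_union_self_eq_union]
          exact union_subset_union_right hx1
        have h7 := (card_le_card h6).trans (card_union_le _ _)
        omega
    · intro s hs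
      by_contra hne
      apply hs x
      rw [D_update_ne (Ne.symm hne)]
      have : insert k (D w x y) \ {i, j} = {k} := by
        ext l
        simp only [mem_sdiff, mem_insert, mem_singleton]
        constructor
        · rintro ⟨h1 | h1, h2⟩
          · exact h1
          · have := hx h1
            simp only [mem_insert, mem_singleton] at this
            tauto
        · rintro rfl
          exact ⟨Or.inl rfl, by tauto⟩
      rw [this, card_singleton]
  · push Not at hA
    let V : Finset ι := univ \ {i, j, k}
    have hcV : V.card + 1 = Fintype.card A := by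
      have h1 : ({i, j, k} : Finset ι).card = 3 := card_eq_three.2 ⟨i, j, k, hij, hik.symm, hjk.symm, rfl⟩
      have h2 : V.card = Fintype.card ι - 3 := by
        rw [card_sdiff_of_subset (subset_univ _), h1, card_univ]
      have h3 : 3 ≤ Fintype.card ι := by
        rw [← h1]; exact card_le_univ _
      omega
    have hmV : ∀ l, l ∈ V ↔ l ≠ i ∧ l ≠ j ∧ l ≠ k := by
      intro l; simp [V]
    have hxl : ∀ l, ∃ x, l ∈ V → D w x y ⊆ {i, j, k, l} := by
      intro l
      by_cases hl : l ∈ V
      · rw [hmV] at hl
        obtain ⟨x, hx⟩ := H.ex {i, j, k, l} (by
          rw [card_insert_of_notMem, card_eq_three.2 ⟨j, k, l, hjk.symm, hl.2.1.symm, hl.2.2.symm, rfl⟩]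
          simp only [mem_insert, mem_singleton]
          have := hl.1
          tauto) y
        exact ⟨x, fun _ => hx⟩
      · exact ⟨Classical.arbitrary X, fun h => absurd h hl⟩
    choose xl hxl using hxl
    have hlD : ∀ l ∈ V, l ∈ D w (xl l) y := by
      intro l hl
      by_contra hcon
      apply hA (xl l)
      intro a ha
      have := hxl l hl ha
      simp only [mem_insert, mem_singleton] at this ⊢
      rcases this with h | h | h | h
      · tauto
      · tauto
      · tauto
      · subst h; exact absurd ha hcon
    have hinj : Set.InjOn (fun l => w (xl l) k) (V : Set ι) := by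
      intro l hl l' hl' he
      rw [mem_coe] at hl hl'
      dsimp only at he
      have h1 : xl l = xl l' := by
        refine H.uniq ({i, j, l, l'}) card_le_four _ _ ?_
        intro a ha
        by_contra hcon
        simp only [mem_insert, mem_singleton, not_or] at hcon
        rw [mem_D] at ha
        apply ha
        by_cases hak : a = k
        · subst hak; exact he
        · have h2 : a ∉ D w (xl l) y := fun h => by
            have := hxl l hl h
            simp only [mem_insert, mem_singleton] at this
            tauto
          have h3 : a ∉ D w (xl l') y := fun h => by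
            have := hxl l' hl' h
            simp only [mem_insert, mem_singleton] at this
            tauto
          rw [notMem_D] at h2 h3
          rw [h2, h3]
      by_contra hne
      have h4 := hxl l' hl' (h1 ▸ hlD l hl)
      rw [hmV] at hl
      simp only [mem_insert, mem_singleton] at h4
      tauto
    have hcI : (univ \ V.image (fun l => w (xl l) k)).card = 1 := by
      rw [card_sdiff_of_subset (subset_univ _), card_image_of_injOn hinj, card_univ]
      omega
    obtain ⟨s, hs⟩ := card_eq_one.1 hcI
    have hs' : ∀ a, a = s ↔ ∀ l ∈ V, w (xl l) k ≠ a := by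
      intro a
      rw [← mem_singleton, ← hs]
      simp
    refine ⟨s, ?_, ?_⟩
    · intro x hx
      obtain ⟨l, hl⟩ := card_eq_one.1 hx
      have hlD' : ∀ a, a ∈ D w x (Function.update y k s) → a = i ∨ a = j ∨ a = l := by
        intro a ha
        by_cases h1 : a = i
        · exact Or.inl h1
        · by_cases h2 : a = j
          · exact Or.inr (Or.inl h2)
          · have : a ∈ D w x (Function.update y k s) \ {i, j} := by
              simp only [mem_sdiff, mem_insert, mem_singleton]
              tauto
            rw [hl, mem_singleton] at this
            exact Or.inr (Or.inr this)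
      have hl0 : l ∈ D w x (Function.update y k s) ∧ l ≠ i ∧ l ≠ j := by
        have : l ∈ D w x (Function.update y k s) \ {i, j} := by rw [hl]; exact mem_singleton_self l
        simp only [mem_sdiff, mem_insert, mem_singleton, not_or] at this
        exact this
      have hsub : D w x y ⊆ {i, j, k, l} := by
        intro a ha
        have h1 := D_subset_update (k := k) (s := s) ha
        rw [mem_insert] at h1
        simp only [mem_insert, mem_singleton]
        rcases h1 with h1 | h1
        · tauto
        · have := hlD' a h1
          tauto
      by_cases hlk : l = k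
      · subst hlk
        apply hA x
        refine hsub.trans ?_
        intro a ha
        simp only [mem_insert, mem_singleton] at ha ⊢
        tauto
      · have hlV : l ∈ V := (hmV l).2 ⟨hl0.2.1, hl0.2.2, hlk⟩
        have h1 : x = xl l := by
          refine H.uniq _ (le_refl 4 |>.trans' ?_) _ _ ((D_tri w x (xl l) y).trans
            (union_subset hsub (hxl l hlV)))
          exact card_le_four
        have h2 : k ∉ D w x (Function.update y k s) := by
          intro hk
          have := hlD' k hk
          tauto
        rw [notMem_D] at h2
        simp only [Function.update_self] at h2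
        exact (hs' s).1 rfl l hlV (h1 ▸ h2)
    · intro a ha
      rw [hs']
      intro l hl he
      subst he
      apply ha (xl l)
      rw [D_update_same]
      have : (D w (xl l) y).erase k \ {i, j} = {l} := by
        ext b
        simp only [mem_sdiff, mem_insert, mem_singleton, mem_erase]
        constructor
        · rintro ⟨⟨h1, h2⟩, h3⟩
          have := hxl l hl h2
          simp only [mem_insert, mem_singleton] at this
          tauto
        · rintro rfl
          have h1 := (hmV b).1 hl
          exact ⟨⟨h1.2.2, hlD b hl⟩, by tauto⟩
      rw [this, card_singleton]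

end Pool.Agent.H58.PC
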