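import Pool.Agent.H58.PC.Blocks

/-!
# Arrays of strength `|A| - 2` with `|A| + 2` columns, and arrays of strength `|A| - 1` with
`|A| + 3` columns
-/

set_option autoImplicit false
set_option linter.unusedSectionVars false

open Finset

namespace Pool.Agent.H58.PC

variable {ι A X : Type*} [Fintype ι] [DecidableEq ι] [Fintype A] [DecidableEq A]

/-- orthogonal array of strength `t` and index one: for every set `T` of `t` columns and all
values prescribed there exactly one row has these values -/
def IsArr {ι A X : Type*} (w : X → ι → A) (t : ℕ) : Prop :=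
  ∀ T : Finset ι, T.card = t → ∀ y : ι → A, ∃! x, ∀ i ∈ T, w x i = y i

lemma IsArr.mds4 {w : X → ι → A} {t : ℕ} (H : IsArr w t) (hc : Fintype.card ι = t + 4) :
    MDS4 w := by
  constructor
  · intro S hS y
    obtain ⟨x, hx, -⟩ := H (univ \ S) (by
      rw [card_sdiff_of_subset (subset_univ _), card_univ, hS, hc]; omega) y
    refine ⟨x, fun i hi => ?_⟩
    by_contra h
    exact (mem_D.1 hi) (hx i (by simp [h]))
  · intro S hS x x' hxx
    obtain ⟨S', h1, -, h2⟩ := exists_subsuperset_card_eq (subset_univ S) hS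
      (by rw [card_univ]; omega)
    obtain ⟨x1, -, hu⟩ := H (univ \ S') (by
      rw [card_sdiff_of_subset (subset_univ _), card_univ, h2, hc]; omega) (w x')
    have e1 := hu x (fun i hi => by
      by_contra h
      have : i ∈ S' := h1 (hxx (mem_D.2 h))
      simp [this] at hi)
    have e2 := hu x' (fun i _ => rfl)
    rw [e1, e2]

lemma IsArr.shorten {ι A X : Type*} [DecidableEq ι] {w : X → ι → A} {t : ℕ}
    (H : IsArr w (t + 1)) (i0 : ι) (a : A) :
    IsArr (fun (x : {x : X // w x i0 = a}) (i : {i : ι // i ≠ i0}) => w x.1 i.1) t := by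
  classical
  intro T hT y
  obtain ⟨x, hx, hu⟩ := H (insert i0 (T.map (Function.Embedding.subtype _))) (by
    rw [card_insert_of_notMem, card_map, hT]
    intro h
    obtain ⟨⟨b, hb⟩, -, h2⟩ := mem_map.1 h
    exact hb h2) (fun i => if h : i ≠ i0 then y ⟨i, h⟩ else a)
  have h0 := hx i0 (mem_insert_self _ _)
  simp only [ne_eq, not_true_eq_false, dite_false] at h0
  refine ⟨⟨x, h0⟩, ?_, ?_⟩
  · intro i hi
    have h1 := hx i.1 (mem_insert_of_mem (mem_map.2 ⟨i, hi, rfl⟩))
    rw [dif_pos i.2] at h1
    exact h1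
  · rintro ⟨x', hx'⟩ h
    apply Subtype.ext
    apply hu
    intro i hi
    rw [mem_insert] at hi
    rcases hi with rfl | hi
    · simp [hx']
    · obtain ⟨b, hb, rfl⟩ := mem_map.1 hi
      have h1 := h b hb
      show w x' (b : ι) = if h : (b : ι) ≠ i0 then y ⟨b, h⟩ else a
      rw [dif_pos b.2]
      exact h1

lemma IsArr.restrict {ι κ A X : Type*} [Nonempty A] {w : X → ι → A} {t : ℕ}
    (H : IsArr w t) (f : κ ↪ ι) : IsArr (fun x k => w x (f k)) t := by
  classical
  intro T hT y
  obtain ⟨x, hx, hu⟩ := H (T.map f) (by rw [card_map, hT])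
    (Function.extend f y (fun _ => Classical.arbitrary A))
  refine ⟨x, fun k hk => ?_, fun x' hx' => hu x' fun i hi => ?_⟩
  · have := hx (f k) (mem_map.2 ⟨k, hk, rfl⟩)
    rw [f.injective.extend_apply] at this
    exact this
  · obtain ⟨k, hk, rfl⟩ := mem_map.1 hi
    rw [f.injective.extend_apply]
    exact hx' k hk

/-- strength `|A| - 2`: at most `|A| + 1` columns -/
theorem IsArr.card_le {w : X → ι → A} {t : ℕ} (H : IsArr w t) (ht : t + 2 = Fintype.card A)
    (hev : Even (Fintype.card A)) (h4 : 4 ≤ Fintype.card A) (h3 : ¬ 3 ∣ Fintype.card A) :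
    Fintype.card ι ≤ Fintype.card A + 1 := by
  by_contra hcon
  push Not at hcon
  have : Nonempty A := Fintype.card_pos_iff.1 (by omega)
  obtain ⟨f⟩ := Function.Embedding.nonempty_of_card_le (α := Fin (Fintype.card A + 2)) (β := ι)
    (by rw [Fintype.card_fin]; omega)
  have H' := H.restrict f
  exact h3 (three_dvd_card (H'.mds4 (by rw [Fintype.card_fin]; omega))
    (by rw [Fintype.card_fin]) hev h4)

/-- strength `|A| - 1`: at most `|A| + 2` columns -/
theorem IsArr.card_le' {w : X → ι → A} {t : ℕ} (H : IsArr w t) (ht : t + 1 = Fintype.card A)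
    (hev : Even (Fintype.card A)) (h4 : 4 ≤ Fintype.card A) (h3 : ¬ 3 ∣ Fintype.card A) :
    Fintype.card ι ≤ Fintype.card A + 2 := by
  classical
  by_contra hcon
  push Not at hcon
  have : Nonempty ι := Fintype.card_pos_iff.1 (by omega)
  have : Nonempty A := Fintype.card_pos_iff.1 (by omega)
  obtain ⟨s, rfl⟩ : ∃ s, t = s + 1 := ⟨t - 1, by omega⟩
  have H' := H.shorten (Classical.arbitrary ι) (Classical.arbitrary A)
  have h5 := H'.card_le (by omega) hev h4 h3
  have h6 : Fintype.card {i : ι // i ≠ Classical.arbitrary ι} = Fintype.card ι - 1 := by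
    rw [Fintype.card_subtype_compl, Fintype.card_subtype_eq]
  omega

end Pool.Agent.H58.PC
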